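import Pool.Agent.Q276.PL.Stm2

/-! Few large values of `L(1, chi_D)`: Markov inequality on dyadic blocks. -/

set_option autoImplicit false

namespace Pool.Agent.Q293.PL.LSM

open Finset Filter NumberField Pool.Agent.H38R2.CG Pool.Agent.Q276.PL
open scoped Classical

/-- A sequence with `u X ≤ (3/5) u (X/2) + ε` eventually, for all `ε`, tends to `0`. -/
lemma recur (u : ℕ → ℝ) (hu : ∀ n, 0 ≤ u n)
    (h : ∀ ε : ℝ, 0 < ε → ∃ N : ℕ, ∀ X ≥ N, u X ≤ 3 / 5 * u (X / 2) + ε) :
    Tendsto u atTop (nhds 0) := by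
  rw [Metric.tendsto_atTop]
  intro ε hε
  obtain ⟨N0, hN0⟩ := h (ε / 7) (by positivity)
  set N := N0 + 1 with hN
  have hN1 : ∀ X ≥ N, u X ≤ 3 / 5 * u (X / 2) + ε / 7 := fun X hX => hN0 X (by omega)
  set M : ℝ := ∑ n ∈ range N, u n with hM
  have hM0 : 0 ≤ M := Finset.sum_nonneg fun n _ => hu n
  have hbd : ∀ X, u X ≤ M + 5 / 2 * (ε / 7) := by
    intro X
    induction X using Nat.strong_induction_on with
    | _ X ih =>
      by_cases hX : X < N
      · have := Finset.single_le_sum (f := u) (fun n _ => hu n) (Finset.mem_range.2 hX)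
        have h2 : 0 < ε := hε
        linarith
      · have hX' : N ≤ X := not_lt.1 hX
        have h1 := hN1 X hX'
        have h2 := ih (X / 2) (by omega)
        linarith
  have hk : ∀ k : ℕ, ∀ X ≥ 2 ^ k * N, u X ≤ (3 / 5) ^ k * M + 5 / 2 * (ε / 7) := by
    intro k
    induction k with
    | zero =>
      intro X _
      simpa using hbd X
    | succ k ih =>
      intro X hX
      have hX1 : 2 ^ k * N ≤ X / 2 := by
        rw [pow_succ] at hX
        have : 2 ^ k * N * 2 ≤ X := by nlinarith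
        omega
      have hX2 : N ≤ X := by
        have : N ≤ 2 ^ k * N := Nat.le_mul_of_pos_left N (by positivity)
        omega
      have h1 := hN1 X hX2
      have h2 := ih (X / 2) hX1
      rw [pow_succ]
      nlinarith
  have ht : Tendsto (fun k : ℕ => (3 / 5 : ℝ) ^ k * M) atTop (nhds (0 * M)) :=
    (tendsto_pow_atTop_nhds_zero_of_lt_one (by norm_num) (by norm_num)).mul_const M
  rw [zero_mul] at ht
  obtain ⟨k, hk2⟩ := (ht.eventually (gt_mem_nhds (show (0 : ℝ) < ε / 7 by positivity))).exists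
  refine ⟨2 ^ k * N, fun X hX => ?_⟩
  rw [Real.dist_eq, sub_zero, abs_of_nonneg (hu X)]
  have := hk k X hX
  linarith

lemma gen (A : ℕ → Prop) (f g : ℕ → ℝ) (C : ℝ) (X0 : ℕ) (η : ℝ) (hη : 0 < η)
    (hf : ∀ D, A D → 0 ≤ f D) (hg0 : ∀ n, 0 ≤ g n)
    (hgp : ∃ n1 : ℕ, ∀ n ≥ n1, 0 < g n)
    (hsum : ∀ X ≥ X0, ∑ D ∈ (Finset.Ioc X (2 * X)).filter A, f D ≤ C * X / g X)
    (hg2 : ∃ n1 : ℕ, ∀ X ≥ n1, g X ≤ 6 / 5 * g (X / 2))
    (hg3 : Tendsto (fun X : ℕ => g X / X) atTop (nhds 0)) :
    Tendsto (fun X : ℕ =>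
      (((Finset.Icc 2 X).filter (fun D => A D ∧ Real.log D ^ η < f D)).card : ℝ) * g X / X)
      atTop (nhds 0) := by
  set F : ℕ → ℕ := fun X => ((Finset.Icc 2 X).filter (fun D => A D ∧ Real.log D ^ η < f D)).card
    with hF
  change Tendsto (fun X : ℕ => (F X : ℝ) * g X / X) atTop (nhds 0)
  apply recur
  · intro n
    have := hg0 n
    positivity
  intro ε hε
  obtain ⟨n1, hn1⟩ := hgp
  obtain ⟨n2, hn2⟩ := hg2
  obtain ⟨n3, hn3⟩ := (Metric.tendsto_atTop.1 hg3) (ε / 2) (by positivity)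
  have hL : Tendsto (fun n : ℕ => Real.log (n : ℝ) ^ η) atTop atTop :=
    (tendsto_rpow_atTop hη).comp (Real.tendsto_log_atTop.comp tendsto_natCast_atTop_atTop)
  obtain ⟨n4, hn4⟩ := (tendsto_atTop_atTop.1 hL) (|C| / (ε / 2) + 1)
  refine ⟨2 * (n1 + n2 + n3 + n4 + X0 + 2), fun X hX => ?_⟩
  set n := X / 2 with hn
  have hnb : n1 + n2 + n3 + n4 + X0 + 2 ≤ n := by omega
  have hXn : X = 2 * n ∨ X = 2 * n + 1 := by omega
  have hgn : 0 < g n := hn1 n (by omega)
  have hgX : g X ≤ 6 / 5 * g n := hn2 X (by omega)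
  have h3 : g X / X < ε / 2 := by
    have := hn3 X (by omega)
    rw [Real.dist_eq, sub_zero] at this
    exact (le_abs_self _).trans_lt this
  have h4 : |C| / (ε / 2) + 1 ≤ Real.log (n : ℝ) ^ η := hn4 n (by omega)
  have hLpos : 0 < Real.log (n : ℝ) ^ η := by
    have : 0 ≤ |C| / (ε / 2) := by positivity
    linarith
  have hn0 : (0 : ℝ) < n := by
    have : 0 < n := by omega
    exact_mod_cast this
  have hX0 : (0 : ℝ) < X := by
    have : 0 < X := by omega
    exact_mod_cast this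
  have hXn' : 2 * (n : ℝ) ≤ X := by
    have : 2 * n ≤ X := by omega
    exact_mod_cast this
  -- the block
  set c : ℕ := ((Finset.Ioc n (2 * n)).filter (fun D => A D ∧ Real.log D ^ η < f D)).card with hc
  have hsub : F X ≤ F n + c + 1 := by
    have h1 : (Finset.Icc 2 X).filter (fun D => A D ∧ Real.log D ^ η < f D) ⊆
        ((Finset.Icc 2 n).filter (fun D => A D ∧ Real.log D ^ η < f D) ∪
          (Finset.Ioc n (2 * n)).filter (fun D => A D ∧ Real.log D ^ η < f D)) ∪ {2 * n + 1} := by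
      intro D hD
      rw [Finset.mem_filter, Finset.mem_Icc] at hD
      rw [Finset.mem_union, Finset.mem_union, Finset.mem_filter, Finset.mem_filter,
        Finset.mem_Icc, Finset.mem_Ioc, Finset.mem_singleton]
      rcases lt_or_ge n D with h | h
      · rcases eq_or_ne D (2 * n + 1) with h' | h'
        · exact Or.inr h'
        · exact Or.inl (Or.inr ⟨⟨h, by omega⟩, hD.2⟩)
      · exact Or.inl (Or.inl ⟨⟨hD.1.1, h⟩, hD.2⟩)
    calc F X ≤ _ := Finset.card_le_card h1
      _ ≤ _ := Finset.card_union_le _ _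
      _ ≤ (F n + c) + 1 := by
        refine Nat.add_le_add (Finset.card_union_le _ _) ?_
        rw [Finset.card_singleton]
  have hmark : (c : ℝ) * Real.log (n : ℝ) ^ η ≤ |C| * n / g n := by
    have h1 : (c : ℝ) * Real.log (n : ℝ) ^ η ≤
        ∑ D ∈ (Finset.Ioc n (2 * n)).filter (fun D => A D ∧ Real.log D ^ η < f D), f D := by
      rw [hc, ← nsmul_eq_mul]
      refine Finset.card_nsmul_le_sum _ _ _ ?_
      intro D hD
      rw [Finset.mem_filter, Finset.mem_Ioc] at hD
      refine le_trans ?_ hD.2.2.le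
      have hD1 : (n : ℝ) ≤ D := by exact_mod_cast hD.1.1.le
      have h5 : Real.log (n : ℝ) ≤ Real.log (D : ℝ) := Real.log_le_log hn0 hD1
      have h6 : 0 ≤ Real.log (n : ℝ) := Real.log_natCast_nonneg n
      exact Real.rpow_le_rpow h6 h5 hη.le
    have h2 : ∑ D ∈ (Finset.Ioc n (2 * n)).filter (fun D => A D ∧ Real.log D ^ η < f D), f D ≤
        ∑ D ∈ (Finset.Ioc n (2 * n)).filter A, f D := by
      refine Finset.sum_le_sum_of_subset_of_nonneg ?_ ?_
      · intro D hD
        rw [Finset.mem_filter] at hD ⊢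
        exact ⟨hD.1, hD.2.1⟩
      · intro D hD _
        rw [Finset.mem_filter] at hD
        exact hf D hD.2
    have h3' := hsum n (by omega)
    have h4' : C * n / g n ≤ |C| * n / g n := by
      gcongr
      exact le_abs_self C
    linarith
  have hc2 : (c : ℝ) * g n / n ≤ ε / 2 := by
    -- c * L * g n ≤ |C| n, and |C| ≤ (ε/2) L
    have h5 : (c : ℝ) * Real.log (n : ℝ) ^ η * g n ≤ |C| * n := by
      rwa [le_div_iff₀ hgn] at hmark
    have h6 : |C| ≤ ε / 2 * Real.log (n : ℝ) ^ η := by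
      have h7 : |C| / (ε / 2) ≤ Real.log (n : ℝ) ^ η := by linarith
      rw [div_le_iff₀ (by positivity)] at h7
      linarith
    rw [div_le_iff₀ hn0]
    have h8 : (c : ℝ) * g n * Real.log (n : ℝ) ^ η ≤ ε / 2 * n * Real.log (n : ℝ) ^ η := by
      have := mul_le_mul_of_nonneg_right h6 hn0.le
      nlinarith
    exact le_of_mul_le_mul_right h8 hLpos
  have hFX : (F X : ℝ) ≤ F n + c + 1 := by exact_mod_cast hsub
  have hgX0 := hg0 X
  have key : ∀ a : ℝ, 0 ≤ a → a * g X / X ≤ 3 / 5 * (a * g n / n) := by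
    intro a ha
    rw [div_le_iff₀ hX0]
    have h9 : 3 / 5 * (a * g n / n) * (2 * n) ≤ 3 / 5 * (a * g n / n) * X := by
      have : 0 ≤ 3 / 5 * (a * g n / n) := by positivity
      exact mul_le_mul_of_nonneg_left hXn' this
    have h10 : 3 / 5 * (a * g n / n) * (2 * n) = 6 / 5 * (a * g n) := by
      field_simp
      ring
    have h11 : a * g X ≤ a * (6 / 5 * g n) := mul_le_mul_of_nonneg_left hgX ha
    linarith
  have e1 := key (F n) (Nat.cast_nonneg _)
  have e2 := key c (Nat.cast_nonneg _)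
  calc (F X : ℝ) * g X / X ≤ (F n + c + 1) * g X / X := by gcongr
    _ = F n * g X / X + c * g X / X + g X / X := by ring
    _ ≤ 3 / 5 * (F n * g n / n) + ε := by linarith

theorem lsm (hLAV : StmtLAV) (hLNN : StmtLNN) : StmtLSM := by
  intro η hη
  obtain ⟨C, X0, hC⟩ := hLAV
  have h := gen IsFund Lone (fun _ => 1) C X0 η hη hLNN (fun _ => zero_le_one)
    ⟨0, fun _ _ => one_pos⟩ (fun X hX => by rw [div_one]; exact hC X hX)
    ⟨0, fun _ _ => by norm_num⟩
    (by simpa using tendsto_one_div_atTop_nhds_zero_nat (𝕜 := ℝ))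
  simpa only [mul_one] using h

theorem lsp (hLAP : StmtLAP) (hLNN : StmtLNN) : StmtLSP := by
  intro η hη
  obtain ⟨C, X0, hC⟩ := hLAP
  have hlog : Tendsto (fun n : ℕ => Real.log (n : ℝ)) atTop atTop :=
    Real.tendsto_log_atTop.comp tendsto_natCast_atTop_atTop
  have h := gen (fun D => IsFund D ∧ ∃ p : ℕ, p.Prime ∧ (D = p ∨ D = 4 * p)) Lone
    (fun n => Real.log n) C X0 η hη (fun D hD => hLNN D hD.1)
    (fun n => Real.log_natCast_nonneg n)
    (by
      refine ⟨2, fun n hn => Real.log_pos ?_⟩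
      have : 1 < n := by omega
      exact_mod_cast this)
    (fun X hX => by convert hC X hX)
    (by
      obtain ⟨n1, hn1⟩ := (tendsto_atTop_atTop.1 hlog) (5 * Real.log 3)
      refine ⟨2 * n1 + 2, fun X hX => ?_⟩
      have h1 := hn1 (X / 2) (by omega)
      have hn : 0 < X / 2 := by omega
      have hn' : (0 : ℝ) < ((X / 2 : ℕ) : ℝ) := by exact_mod_cast hn
      have hX3 : (X : ℝ) ≤ 3 * ((X / 2 : ℕ) : ℝ) := by
        have : X ≤ 3 * (X / 2) := by omega
        exact_mod_cast this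
      have hX0 : (0 : ℝ) < X := by
        have : 0 < X := by omega
        exact_mod_cast this
      have h2 : Real.log (X : ℝ) ≤ Real.log 3 + Real.log ((X / 2 : ℕ) : ℝ) := by
        rw [← Real.log_mul (by norm_num) hn'.ne']
        exact Real.log_le_log hX0 hX3
      linarith)
    (by
      have h1 : Tendsto (fun x : ℝ => Real.log x / x) atTop (nhds 0) := by
        have := Real.isLittleO_log_id_atTop.tendsto_div_nhds_zero
        simpa using this
      exact h1.comp tendsto_natCast_atTop_atTop)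
  simpa only [and_assoc] using h

end Pool.Agent.Q293.PL.LSM
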